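import Pool.Agent.MGP.Stmts

set_option autoImplicit false

/-!
# MGP: assembly
-/

namespace Pool.Agent.MGP.H18

theorem main (hprb : PrbStmt) (hjmp : JmpStmt) (hwin : WinStmt) (hrng : RngStmt) (hfin : FinStmt)
    (hprm : PrmStmt) (hgrp : GrpStmt) : MainStmt := by
  intro k hk n hn hnk
  obtain ⟨z, H, E, R, hpar, hE, hR, hR1, hR2, hn2⟩ := hprm k n hk hnk
  obtain ⟨_, hEN, _, _⟩ := hprb _ _ _ _ hpar
  have hN2 : 2 ≤ 2 * k := by
    have : 1 ≤ k := le_trans (Nat.one_le_pow _ _ (by norm_num)) hk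
    omega
  refine hgrp (fun m => Odd m ∧ (2 * k - 1) ^ 2 < m ∧ m < (2 * k + 1) ^ 2) n
    (fun m hm => lt_of_le_of_lt (Nat.zero_le _) hm.2.1) hn ?_
  intro G _ f κ hf hP
  have hflat : Flat f (2 * k) κ := fun m hm h1 h2 => hP m ⟨hm, h1, h2⟩
  have hJ := hjmp G f (2 * k) z H E κ hf hflat hpar
  obtain ⟨-, hW⟩ := hwin G f (2 * k) E κ hf hflat hpar.1 hE (by omega) hJ
  have hRg := hrng G f (2 * k) (E / 2) (f (2 * k + 1)) hf (by omega)
    (fun v hv h1 h2 => hW v hv h1 (by omega))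
  exact hfin G f (2 * k) (E / 2) R hf hRg hR hR1 hR2 n hn hn2

end Pool.Agent.MGP.H18
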