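import Pool.Agent.Helper18_MGP.Asm
import Pool.Agent.Helper21_MGP.PRB
import Pool.Agent.Helper37_MGP.LNK
import Pool.Agent.Helper37_MGP.MON
import Pool.Agent.Helper77_MGP.VAR
import Pool.Agent.Helper67_MGP.CLS
import Pool.Agent.Helper46_MGP.CTR
import Pool.Agent.Helper64_MGP.RCT
import Pool.Agent.Helper3_MGP.SCL
import Pool.Agent.Helper70_MGP.SEP
import Pool.Agent.Helper60_MGP.VRS
import Pool.Agent.Helper24_MGP.GOD
import Pool.Agent.Helper7_MGP.JMP
import Pool.Agent.Helper95_MGP.WIN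
import Pool.Agent.Helper8_MGP.RNG
import Pool.Agent.Helper66_MGP.FIN
import Pool.Agent.Helper23_MGP.PRM
import Pool.Agent.Helper88_MGP.GRP

set_option autoImplicit false

/-!
# MGP: the theorem
-/

namespace Pool.Agent.MGP.H18

theorem clsAll : ClsStmt := Pool.Agent.MGP.H67.cls Pool.Agent.MGP.H37.lnk Pool.Agent.MGP.H37.mon

theorem godAll : GodStmt :=
  Pool.Agent.MGP.H24.god Pool.Agent.MGP.H21.prb Pool.Agent.MGP.H37.mon Pool.Agent.MGP.H77.var
    (Pool.Agent.MGP.H3.scl Pool.Agent.MGP.H21.prb) (Pool.Agent.MGP.H70.sep Pool.Agent.MGP.H21.prb)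
    (Pool.Agent.MGP.H60.vrs Pool.Agent.MGP.H21.prb)

theorem jmpAll : JmpStmt :=
  Pool.Agent.MGP.H7.jmp Pool.Agent.MGP.H21.prb Pool.Agent.MGP.H37.mon Pool.Agent.MGP.H77.var
    clsAll Pool.Agent.MGP.H46.ctr Pool.Agent.MGP.H64.rct godAll

theorem mainAll : MainStmt :=
  main Pool.Agent.MGP.H21.prb jmpAll (Pool.Agent.MGP.H95.win Pool.Agent.MGP.H46.ctr)
    Pool.Agent.MGP.H8.rng Pool.Agent.MGP.H66.fin Pool.Agent.MGP.H23.prm Pool.Agent.MGP.H88.grp

end Pool.Agent.MGP.H18
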